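import Pool.Agent.Y735.LE.CountF
import Pool.Agent.W602.GT.SpDefs
import Pool.Agent.W603.PV.Hgt

/-!
Lines that meet the boundary in at most two points are not of logarithmic general type.
-/

set_option autoImplicit false

open MvPolynomial FF Pool.Agent.W603.PV Pool.Agent.W602.GT LinearAlgebra.Projectivization

namespace Pool.Agent.Y735.LG

variable {K : Type} [Field K] {n : ℕ} {A : Type} {d : A → ℕ}

theorem rep_mem {W : Submodule K (Fin (n + 1) → K)} {v : Fin (n + 1) → K} (hv : v ∈ W)
    (h0 : v ≠ 0) : (Projectivization.mk K v h0).rep ∈ W := by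
  obtain ⟨a, ha⟩ := Projectivization.exists_smul_eq_mk_rep K v h0
  rw [← ha]
  exact W.smul_mem _ hv

theorem indep_of_ne {p q : ℙ K (Fin (n + 1) → K)} (h : p ≠ q) :
    LinearIndependent K ![p.rep, q.rep] := by
  rw [LinearIndependent.pair_iff' p.rep_nonzero]
  intro a ha
  apply h
  rw [← p.mk_rep, ← q.mk_rep]
  exact ((Projectivization.mk_eq_mk_iff' K q.rep p.rep q.rep_nonzero p.rep_nonzero).2
    ⟨a, ha⟩).symm

/-- A basis of a plane such that the given at most two points are among the basis vectors. -/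
theorem exists_basis {W : Submodule K (Fin (n + 1) → K)} (hW : Module.finrank K W = 2)
    {B : Set (ℙ K (Fin (n + 1) → K))} (hB : ∀ p ∈ B, p.rep ∈ W) (h2 : B.encard ≤ 2) :
    ∃ P ∈ W, ∃ Q ∈ W, LinearIndependent K ![P, Q] ∧ ∀ t : K, t ≠ 0 → ∀ h : P + t • Q ≠ 0,
      Projectivization.mk K (P + t • Q) h ∉ B := by
  have hge : (2 : ℕ∞) ≤ ({p : ℙ K (Fin (n + 1) → K) | p.rep ∈ W}).encard := by
    have h3 : 1 < Module.finrank K W := by omega
    obtain ⟨v, w, hvw⟩ : ∃ v w : W, LinearIndependent K ![v, w] := by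
      have hfd : FiniteDimensional K W := inferInstance
      obtain ⟨v, hv⟩ : ∃ v : W, v ≠ 0 := by
        have : Nontrivial W := Module.nontrivial_of_finrank_pos (R := K) (by omega)
        exact exists_ne 0
      have h4 : Submodule.span K {v} ≠ ⊤ := by
        intro h5
        have h6 := finrank_span_singleton (K := K) hv
        rw [h5, finrank_top] at h6
        omega
      obtain ⟨w, hw⟩ : ∃ w : W, w ∉ Submodule.span K {v} := by
        by_contra hcon
        push Not at hcon
        exact h4 (eq_top_iff.2 fun w _ => hcon w)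
      refine ⟨v, w, (LinearIndependent.pair_iff' hv).2 fun a ha => hw ?_⟩
      rw [← ha]
      exact Submodule.smul_mem _ _ (Submodule.mem_span_singleton_self v)
    have hv0 : (v : Fin (n + 1) → K) ≠ 0 := by
      intro h4
      have := hvw.ne_zero 0
      exact this (Subtype.ext h4)
    have hw0 : (w : Fin (n + 1) → K) ≠ 0 := by
      intro h4
      have := hvw.ne_zero 1
      exact this (Subtype.ext h4)
    have hne : Projectivization.mk K (v : Fin (n + 1) → K) hv0 ≠
        Projectivization.mk K (w : Fin (n + 1) → K) hw0 := by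
      intro h4
      rw [Projectivization.mk_eq_mk_iff'] at h4
      obtain ⟨a, ha⟩ := h4
      have h5 := LinearIndependent.pair_iff.1 hvw (-1) a (by
        apply Subtype.ext
        push_cast
        rw [ha]
        simp)
      have : (-1 : K) = 0 := h5.1
      simp at this
    have h5 : ({Projectivization.mk K (v : Fin (n + 1) → K) hv0,
        Projectivization.mk K (w : Fin (n + 1) → K) hw0} : Set (ℙ K (Fin (n + 1) → K))) ⊆
        {p | p.rep ∈ W} := by
      intro p hp
      rcases hp with rfl | rfl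
      · exact rep_mem v.2 hv0
      · exact rep_mem w.2 hw0
    rw [← Set.encard_pair hne]
    exact Set.encard_le_encard h5
  obtain ⟨r, hr1, hr2, hr3⟩ := Set.exists_superset_subset_encard_eq
    (s := B) (t := {p | p.rep ∈ W}) hB h2 hge
  obtain ⟨p, q, hpq, rfl⟩ := Set.encard_eq_two.1 hr3
  have hp : p.rep ∈ W := hr2 (Or.inl rfl)
  have hq : q.rep ∈ W := hr2 (Or.inr rfl)
  have hli := indep_of_ne hpq
  refine ⟨p.rep, hp, q.rep, hq, hli, fun t ht h hmem => ?_⟩
  rcases hr1 hmem with h5 | h5
  · have h5' : Projectivization.mk K (p.rep + t • q.rep) h = p := h5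
    have h6 := h5'.trans p.mk_rep.symm
    rw [Projectivization.mk_eq_mk_iff'] at h6
    obtain ⟨a, ha⟩ := h6
    have h7 := LinearIndependent.pair_iff.1 hli (1 - a) t (by
      rw [sub_smul, one_smul, ha]
      abel)
    exact ht h7.2
  · have h5' : Projectivization.mk K (p.rep + t • q.rep) h = q := h5
    have h6 := h5'.trans q.mk_rep.symm
    rw [Projectivization.mk_eq_mk_iff'] at h6
    obtain ⟨a, ha⟩ := h6
    have h7 := LinearIndependent.pair_iff.1 hli 1 (t - a) (by
      rw [sub_smul, one_smul, ha]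
      abel)
    exact one_ne_zero h7.1

/-- A polynomial without nonzero roots is a monomial. -/
theorem poly_mono [IsAlgClosed K] {g : Polynomial K} (hg : g ≠ 0)
    (h : ∀ t, t ≠ 0 → g.eval t ≠ 0) :
    ∃ c : K, c ≠ 0 ∧ ∃ j : ℕ, g = Polynomial.C c * Polynomial.X ^ j := by
  refine ⟨g.leadingCoeff, Polynomial.leadingCoeff_ne_zero.2 hg, Multiset.card g.roots, ?_⟩
  have h1 := (IsAlgClosed.splits g).eq_prod_roots
  have h2 : g.roots = Multiset.replicate (Multiset.card g.roots) 0 := by
    rw [Multiset.eq_replicate]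
    refine ⟨rfl, fun b hb => ?_⟩
    by_contra hb0
    exact h b hb0 (Polynomial.isRoot_of_mem_roots hb)
  conv_lhs => rw [h1]
  rw [h2]
  simp

/-- The restriction of a polynomial to the line through two points. -/
noncomputable def gl (P Q : Fin (n + 1) → K) (G : MvPolynomial (Fin (n + 1)) K) : Polynomial K :=
  aeval (fun i => Polynomial.C (P i) + Polynomial.X * Polynomial.C (Q i)) G

theorem eval_gl (P Q : Fin (n + 1) → K) (G : MvPolynomial (Fin (n + 1)) K) (t : K) :
    (gl P Q G).eval t = eval (P + t • Q) G := by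
  unfold gl
  rw [← Polynomial.coe_evalRingHom, aeval_def, MvPolynomial.hom_eval₂, MvPolynomial.eval]
  simp only [coe_eval₂Hom]
  congr 1
  · ext z
    simp
  · funext i
    simp only [Polynomial.coe_evalRingHom, Polynomial.eval_add, Polynomial.eval_C,
      Polynomial.eval_mul, Polynomial.eval_X, Pi.add_apply, Pi.smul_apply, smul_eq_mul]

/-- The generic point of the line. -/
noncomputable def gp (P Q : Fin (n + 1) → K) : Fin (n + 1) → RatFunc K := fun i =>
  algebraMap (Polynomial K) (RatFunc K) (Polynomial.C (P i) + Polynomial.X * Polynomial.C (Q i))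

theorem aeval_gp (P Q : Fin (n + 1) → K) (G : MvPolynomial (Fin (n + 1)) K) :
    aeval (gp P Q) G = algebraMap (Polynomial K) (RatFunc K) (gl P Q G) :=
  MvPolynomial.aeval_algebraMap_apply _ _ _

theorem gp_apply (P Q : Fin (n + 1) → K) (i : Fin (n + 1)) : gp P Q i =
    algebraMap K (RatFunc K) (P i) + RatFunc.X * algebraMap K (RatFunc K) (Q i) := by
  unfold gp
  rw [map_add, map_mul, RatFunc.algebraMap_X]
  rfl

theorem exists_det {P Q : Fin (n + 1) → K} (h : LinearIndependent K ![P, Q]) :
    ∃ i j, P i * Q j - P j * Q i ≠ 0 := by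
  by_contra hcon
  push Not at hcon
  obtain ⟨j, hj⟩ : ∃ j, Q j ≠ 0 := by
    by_contra h1
    push Not at h1
    exact h.ne_zero 1 (funext h1)
  have h2 := LinearIndependent.pair_iff.1 h (Q j) (-(P j)) (by
    funext i
    have h3 := hcon i j
    simp only [Pi.add_apply, Pi.smul_apply, smul_eq_mul, Pi.zero_apply]
    linear_combination h3)
  exact hj h2.1

theorem X_mem {P Q : Fin (n + 1) → K} (h : LinearIndependent K ![P, Q]) :
    (RatFunc.X : RatFunc K) ∈ coords K (gp P Q) := by
  obtain ⟨i, j, hij⟩ := exists_det h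
  have hinj := FaithfulSMul.algebraMap_injective (Polynomial K) (RatFunc K)
  have hx : gp P Q j ≠ 0 := by
    intro h0
    have h1 : Polynomial.C (P j) + Polynomial.X * Polynomial.C (Q j) = 0 := by
      apply hinj
      rw [map_zero]
      exact h0
    have h2 : P j = 0 := by
      have := congrArg (Polynomial.eval 0) h1
      simpa using this
    have h3 : Q j = 0 := by
      have := congrArg (Polynomial.eval 1) h1
      simpa [h2] using this
    apply hij
    rw [h2, h3]
    ring
  have hu : gp P Q i / gp P Q j ∈ coords K (gp P Q) :=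
    IntermediateField.subset_adjoin _ _ ⟨i, j, hx, rfl⟩
  set u : RatFunc K := gp P Q i / gp P Q j with hu_def
  have h1 : u * gp P Q j = gp P Q i := div_mul_cancel₀ _ hx
  rw [gp_apply, gp_apply] at h1
  have h2 : (RatFunc.X : RatFunc K) * (u * algebraMap K (RatFunc K) (Q j) -
      algebraMap K (RatFunc K) (Q i)) =
      algebraMap K (RatFunc K) (P i) - u * algebraMap K (RatFunc K) (P j) := by
    linear_combination h1
  have h3 : u * algebraMap K (RatFunc K) (Q j) - algebraMap K (RatFunc K) (Q i) ≠ 0 := by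
    intro h0
    rw [h0, mul_zero] at h2
    apply hij
    apply FaithfulSMul.algebraMap_injective K (RatFunc K)
    rw [map_sub, map_mul, map_mul, map_zero]
    linear_combination -(algebraMap K (RatFunc K) (Q j)) * h2 + (algebraMap K (RatFunc K) (P j)) * h0
  have h4 : (RatFunc.X : RatFunc K) = (algebraMap K (RatFunc K) (P i) -
      u * algebraMap K (RatFunc K) (P j)) / (u * algebraMap K (RatFunc K) (Q j) -
      algebraMap K (RatFunc K) (Q i)) := by
    rw [eq_div_iff h3, h2]
  rw [h4]
  exact div_mem (sub_mem (algebraMap_mem _ _) (mul_mem hu (algebraMap_mem _ _)))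
    (sub_mem (mul_mem hu (algebraMap_mem _ _)) (algebraMap_mem _ _))

theorem coords_gp {P Q : Fin (n + 1) → K} (h : LinearIndependent K ![P, Q]) :
    coords K (gp P Q) = ⊤ := by
  rw [eq_top_iff, ← RatFunc.adjoin_X, IntermediateField.adjoin_le_iff]
  rintro _ rfl
  exact X_mem h

/-- The generic point of an exceptional line. -/
theorem exists_gen [IsAlgClosed K] (F : A → MvPolynomial (Fin (n + 1)) K)
    (hF : ∀ a, (F a).IsHomogeneous (d a)) (C : Finset A) {W : Submodule K (Fin (n + 1) → K)}
    (hW : Module.finrank K W = 2) (hC : ∀ c ∈ C, ∀ v ∈ W, eval v (F c) = 0)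
    (h2 : ({p : ℙ K (Fin (n + 1) → K) | p.rep ∈ W ∧ ∃ b, b ∉ C ∧ eval p.rep (F b) = 0}).encard ≤ 2) :
    ∃ x : Fin (n + 1) → RatFunc K, x ≠ 0 ∧ (∀ z, (z : RatFunc K) ∈ coords K x) ∧
      (∀ c ∈ C, aeval x (F c) = 0) ∧ (∀ b, b ∉ C → aeval x (F b) ≠ 0) ∧
      ∀ Q : Place K (RatFunc K), Q.ord RatFunc.X = 0 →
        0 ≤ pord Q x ∧ ∀ b, b ∉ C → Q.ord (aeval x (F b)) = 0 := by
  classical
  have hinf : Infinite K := IsAlgClosed.instInfinite
  have hinj := FaithfulSMul.algebraMap_injective (Polynomial K) (RatFunc K)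
  obtain ⟨P, hP, Q, hQ, hli, hB⟩ := exists_basis hW (fun p hp => hp.1) h2
  have hne : ∀ t : K, P + t • Q ≠ 0 := by
    intro t h0
    have h3 := LinearIndependent.pair_iff.1 hli 1 t (by rw [one_smul]; exact h0)
    exact one_ne_zero h3.1
  have hval : ∀ b, b ∉ C → ∀ t : K, t ≠ 0 → (gl P Q (F b)).eval t ≠ 0 := by
    intro b hb t ht h0
    rw [eval_gl] at h0
    have hmem : P + t • Q ∈ W := add_mem hP (W.smul_mem _ hQ)
    apply hB t ht (hne t)
    refine ⟨rep_mem hmem _, b, hb, ?_⟩
    obtain ⟨u, hu⟩ := Projectivization.exists_smul_eq_mk_rep K (P + t • Q) (hne t)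
    rw [← hu]
    have hu' : u • (P + t • Q) = (u : K) • (P + t • Q) := rfl
    rw [hu', Pool.Agent.TH145.GH.eval_smul_hom (hF b), h0, mul_zero]
  have hgl : ∀ b, b ∉ C → gl P Q (F b) ≠ 0 := by
    intro b hb h0
    apply hval b hb 1 one_ne_zero
    rw [h0, Polynomial.eval_zero]
  refine ⟨gp P Q, fun h0 => ?_, fun z => ?_, fun c hc => ?_, fun b hb => ?_, fun v hv =>
    ⟨?_, fun b hb => ?_⟩⟩
  · obtain ⟨i, j, hij⟩ := exists_det hli
    have h3 : ∀ i, P i = 0 := by
      intro i
      have h1 : Polynomial.C (P i) + Polynomial.X * Polynomial.C (Q i) = 0 := by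
        apply hinj
        rw [map_zero]
        exact congrFun h0 i
      have := congrArg (Polynomial.eval 0) h1
      simpa using this
    apply hij
    rw [h3, h3]
    ring
  · rw [coords_gp hli]
    exact IntermediateField.mem_top
  · rw [aeval_gp]
    have h3 : gl P Q (F c) = 0 := Polynomial.funext fun t => by
      rw [eval_gl, Polynomial.eval_zero]
      exact hC c hc _ (add_mem hP (W.smul_mem _ hQ))
    rw [h3, map_zero]
  · rw [aeval_gp, Ne, map_eq_zero_iff _ hinj]
    exact hgl b hb
  · obtain ⟨i, j, hij⟩ := exists_det hli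
    obtain ⟨l, hl⟩ : ∃ l, gp P Q l ≠ 0 := by
      by_contra hcon
      push Not at hcon
      have h3 : ∀ i, P i = 0 := by
        intro i
        have h1 : Polynomial.C (P i) + Polynomial.X * Polynomial.C (Q i) = 0 := by
          apply hinj
          rw [map_zero]
          exact hcon i
        have := congrArg (Polynomial.eval 0) h1
        simpa using this
      apply hij
      rw [h3, h3]
      ring
    obtain ⟨l, hl, hl2⟩ := exists_pord v ⟨l, hl⟩
    rw [← hl2, ← v.reg_iff hl, gp_apply]
    refine v.reg_add (v.reg_const _) (v.reg_mul (Or.inr hv.ge) (v.reg_const _))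
  · obtain ⟨c, hc, j, hj⟩ := poly_mono (hgl b hb) (hval b hb)
    rw [aeval_gp, hj, map_mul, map_pow, RatFunc.algebraMap_X, RatFunc.algebraMap_C]
    have hc' : (RatFunc.C c : RatFunc K) ≠ 0 := by
      rw [Ne, map_eq_zero]
      exact hc
    rw [v.ord_mul hc' (pow_ne_zero _ RatFunc.X_ne_zero), v.ord_pow, hv, mul_zero, add_zero]
    exact v.ord_const hc

end Pool.Agent.Y735.LG
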