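import Pool.Agent.Y199.NG.NotLgt
import Pool.Agent.Y735.LG.NotLgt

/-!
Lines that meet the boundary in at most two points are not of logarithmic general type.
-/

set_option autoImplicit false

open MvPolynomial FF Pool.Agent.W603.PV Pool.Agent.W602.GT LinearAlgebra.Projectivization
open IntermediateField Pool.Agent.W619.PQ

namespace Pool.Agent.Y735.LG

variable {K : Type} [Field K] {n : ℕ} {A : Type} {d : A → ℕ}

theorem trdeg_ratFunc : Algebra.trdeg K (RatFunc K) = 1 := by
  have hXM : Transcendental K (RatFunc.X : RatFunc K) := RatFunc.transcendental_X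
  have htopM : K⟮(RatFunc.X : RatFunc K)⟯ = ⊤ := RatFunc.adjoin_X
  have htrX : IsTranscendenceBasis K (fun _ : Unit => (RatFunc.X : RatFunc K)) := by
    have h1 : AlgebraicIndependent K (fun _ : Unit => (RatFunc.X : RatFunc K)) :=
      (algebraicIndependent_unique_type_iff).2 hXM
    rw [h1.isTranscendenceBasis_iff_isAlgebraic]
    have h2 : Set.range (fun _ : Unit => (RatFunc.X : RatFunc K)) = {RatFunc.X} := by simp
    rw [h2]
    have h3 : Algebra.IsAlgebraic K⟮(RatFunc.X : RatFunc K)⟯ (RatFunc K) := by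
      rw [htopM]
      exact ⟨fun z => isAlgebraic_algebraMap
        (⟨z, trivial⟩ : (⊤ : IntermediateField K (RatFunc K)))⟩
    exact alg_adjoin h3
  rw [← htrX.cardinalMk_eq_trdeg]
  simp

theorem ess_ratFunc : Algebra.EssFiniteType K (RatFunc K) := by
  have htopM : K⟮(RatFunc.X : RatFunc K)⟯ = ⊤ := RatFunc.adjoin_X
  have h1 : (⊤ : IntermediateField K (RatFunc K)).FG := by
    rw [← htopM]
    exact ⟨{RatFunc.X}, by simp⟩
  have h2 : Algebra.EssFiniteType K (⊤ : IntermediateField K (RatFunc K)) :=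
    (IntermediateField.essFiniteType_iff).2 h1
  exact (Algebra.EssFiniteType.iff_of_algEquiv (IntermediateField.topEquiv
    (F := K) (E := RatFunc K))).1 h2

/-- A line that meets the boundary in at most two points is not of logarithmic general type. -/
theorem exists_not_lgt [IsAlgClosed K] [CharZero K] (F : A → MvPolynomial (Fin (n + 1)) K)
    (hF : ∀ a, (F a).IsHomogeneous (d a)) (C : Finset A) {W : Submodule K (Fin (n + 1) → K)}
    (hW : Module.finrank K W = 2) (hC : ∀ c ∈ C, ∀ v ∈ W, eval v (F c) = 0)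
    (h2 : ({p : ℙ K (Fin (n + 1) → K) | p.rep ∈ W ∧ ∃ b, b ∉ C ∧ eval p.rep (F b) = 0}).encard ≤ 2) :
    ∃ x : Fin (n + 1) → RatFunc K, x ≠ 0 ∧ Algebra.IsAlgebraic (coords K x) (RatFunc K) ∧
      (∀ c ∈ C, aeval x (F c) = 0) ∧ (∀ b, b ∉ C → aeval x (F b) ≠ 0) ∧
      Algebra.trdeg K (RatFunc K) = (1 : ℕ) ∧
      ¬ LogGeneralType K (RatFunc K) 1 fun Q : Place K (RatFunc K) =>
        ∃ b, b ∉ C ∧ d b * pord Q x < Q.ord (aeval x (F b)) := by
  obtain ⟨x, hx, hco, hxC, hxb, hQ⟩ := exists_gen F hF C hW hC h2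
  have htr : Algebra.trdeg K (RatFunc K) = (1 : ℕ) := by
    rw [trdeg_ratFunc]
    simp
  refine ⟨x, hx, ⟨fun z => isAlgebraic_algebraMap (⟨z, hco z⟩ : coords K x)⟩, hxC, hxb, htr, ?_⟩
  have hess := ess_ratFunc (K := K)
  refine Pool.Agent.Y199.NG.not_lgt_of_gm (M := K) htr (AlgHom.id K (RatFunc K)) inferInstance ?_ ?_
  · rw [_root_.trdeg_eq_zero (R := K) (A := K)]
    simp
  · rintro w hw v e he hov ⟨b, hb, hlt⟩
    have he' : ((e : ℕ) : ℤ) ≠ 0 := by
      intro h0
      omega
    have hvX : v.ord RatFunc.X = 0 := by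
      have h3 := hov RatFunc.X
      rw [AlgHom.id_apply, hw] at h3
      rcases mul_eq_zero.1 h3.symm with h4 | h4
      · exact absurd h4 he'
      · exact h4
    obtain ⟨h3, h4⟩ := hQ v hvX
    rw [h4 b hb] at hlt
    have h5 : (0 : ℤ) ≤ d b * pord v x := mul_nonneg (Nat.cast_nonneg _) h3
    omega

end Pool.Agent.Y735.LG
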