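import Pool.Agent.Y735.LG.Class

/-!
Generic complete intersections: final form.
-/

set_option autoImplicit false

open MvPolynomial FF Pool.Agent.W603.PV Pool.Agent.W602.GT Pool.Agent.TH145.MG
open LinearAlgebra.Projectivization

namespace Pool.Agent.Y735.LG

open Pool.Agent.Y741 (IsLine Pts Bd RPts LineIn EPts)

variable {k K : Type} [Field k] [Field K] [IsAlgClosed K] [CharZero K] [Algebra k K] {n : ℕ}
  {A : Type} [Fintype A] {d : A → ℕ}

/-- Generic complete intersections. -/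
theorem ci_all (hn : 1 ≤ n) (hd0 : ∀ a, 0 < d a)
    (F : A → MvPolynomial (Fin (n + 1)) K) (hF : ∀ a, (F a).IsHomogeneous (d a))
    (I0 : ∀ a, {I : Fin (n + 1) →₀ ℕ // I.degree = d a}) (h0 : ∀ a, (F a).coeff (I0 a).1 ≠ 0)
    (hgen : AlgebraicIndependent k
      fun p : (a : A) × {I : {I : Fin (n + 1) →₀ ℕ // I.degree = d a} // I ≠ I0 a} =>
        (F p.1).coeff p.2.1.1 / (F p.1).coeff (I0 p.1).1) :
    (3 * n + 3 ≤ ∑ a, d a + ∑ a, (d a + 1) →
      (∀ T : Finset K, {p | p ∈ EPts F (IntermediateField.adjoin (algebraicClosure k K)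
        (T : Set K)).toSubfield ∧ ¬ ∃ W, LineIn F W ∧ p.rep ∈ W}.Finite) ∧
      (Fintype.card A < n → ∃ (H : MvPolynomial (Fin (n + 1)) K) (e : ℕ), H.IsHomogeneous e ∧
        (∃ v, (∀ a, eval v (F a) = 0) ∧ eval v H ≠ 0) ∧
        ∀ W, LineIn F W → ∀ v ∈ W, v ≠ 0 → eval v H = 0) ∧
      (2 ≤ n → ∀ a, (∀ b, b = a) → Irreducible (F a))) ∧
    (∀ W, LineIn F W → ∃ T : Finset K,
      {p | p ∈ EPts F (Subfield.closure (T : Set K)) ∧ p.rep ∈ W}.Infinite) ∧
    (Fintype.card A + 5 ≤ n ∨ ∑ a, (d a + 1) ≤ 2 * n - 2 ∨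
        3 * n + 3 ≤ ∑ a, d a + ∑ a, (d a + 1) →
      [∀ T : Finset K, (EPts F (Subfield.closure (T : Set K))).Finite,
        ∀ T : Finset K, (EPts F (IntermediateField.adjoin (algebraicClosure k K)
          (T : Set K)).toSubfield).Finite,
        ∀ W, ¬ LineIn F W,
        2 * n - 1 ≤ ∑ a, (d a + 1)].TFAE) ∧
    ∀ (L : Type) [Field L] [Algebra K L] (w : ℕ) (x : Fin (n + 1) → L), 0 < w →
      2 * n + 2 ≤ ∑ a, (d a + 1) + w → Algebra.trdeg K L = w → x ≠ 0 →
      Algebra.IsAlgebraic (coords K x) L → (∀ a, aeval x (F a) = 0) → GeneralType K L w := by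
  classical
  have hS : ∑ a, (d a + 1) = ∑ a, d a + Fintype.card A := by
    rw [Finset.sum_add_distrib, Finset.sum_const, smul_eq_mul, mul_one, Finset.card_univ]
  rw [hS]
  have hind := ind_flat hgen
  refine ⟨fun hd => ?_, fun W hW => Pool.Agent.Y741.line_inf hW, fun hdim => ?_,
    fun L _ _ w x hw hdw htr hx0 halg hxF => ?_⟩
  · obtain ⟨h1, -, -, h4, h5, -⟩ := Pool.Agent.Y741.generic_intersections hn hd0 (by omega) F hF I0
      h0 hgen
    exact ⟨h1, h4, h5⟩
  · obtain ⟨h1, h2, h3⟩ := class_ci hn hd0 (by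
      rcases hdim with h | h | h
      · exact Or.inr (Or.inr h)
      · exact Or.inr (Or.inl h)
      · exact Or.inl (by omega)) F hF I0 h0 hgen
    tfae_have 1 ↔ 3 := h1
    tfae_have 2 ↔ 3 := h2
    tfae_have 3 ↔ 4 := h3.trans (by omega)
    tfae_finish
  · have h1 := Pool.Agent.Y741.log_sub (k := k) hw Finset.univ
      (by rw [Finset.card_univ]; exact hdw) F hF _ h0 hind htr hx0
      halg (fun c _ => hxF c) (fun b hb => absurd (Finset.mem_univ b) hb)
    have h2 : (fun Q : Place K L => ∃ b, b ∉ (Finset.univ : Finset A) ∧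
        d b * pord Q x < Q.ord (aeval x (F b))) = fun _ => False := by
      funext Q
      refine propext ⟨?_, fun h => h.elim⟩
      rintro ⟨b, hb, -⟩
      exact hb (Finset.mem_univ b)
    rw [h2] at h1
    exact Pool.Agent.W602.GT.general_of_log h1

end Pool.Agent.Y735.LG
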