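import Pool.Agent.Y741.KTop
import Pool.Agent.Y735.LE.TopF
import Pool.Agent.Y735.LG.NotLgt2

/-!
The classification of the generic pairs.
-/

set_option autoImplicit false

open MvPolynomial FF Pool.Agent.W603.PV Pool.Agent.W602.GT Pool.Agent.TH145.MG
open LinearAlgebra.Projectivization

namespace Pool.Agent.Y735.LG

open Pool.Agent.Y741 (IsLine Pts Bd RPts LineIn EPts)

variable {k K : Type} [Field k] [Field K] [IsAlgClosed K] [CharZero K] [Algebra k K] {n : ℕ}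
  {A : Type} [Fintype A] [DecidableEq A] {d : A → ℕ}

omit [IsAlgClosed K] [CharZero K] [Fintype A] [DecidableEq A] in
theorem ind_flat {F : A → MvPolynomial (Fin (n + 1)) K}
    {I0 : ∀ a, {I : Fin (n + 1) →₀ ℕ // I.degree = d a}}
    (hgen : AlgebraicIndependent k
      fun p : (a : A) × {I : {I : Fin (n + 1) →₀ ℕ // I.degree = d a} // I ≠ I0 a} =>
        (F p.1).coeff p.2.1.1 / (F p.1).coeff (I0 p.1).1) :
    AlgebraicIndependent k
      fun p : (a : A) × {I : Fin (n + 1) →₀ ℕ // I.degree = d a ∧ I ≠ (I0 a).1} =>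
        (F p.1).coeff p.2.1 / (F p.1).coeff (I0 p.1).1 := by
  refine hgen.comp (fun p : (a : A) × {I : Fin (n + 1) →₀ ℕ // I.degree = d a ∧ I ≠ (I0 a).1} =>
    (⟨p.1, ⟨p.2.1, p.2.2.1⟩, fun h => p.2.2.2 (congrArg Subtype.val h)⟩ :
      (a : A) × {I : {I : Fin (n + 1) →₀ ℕ // I.degree = d a} // I ≠ I0 a})) ?_
  rintro ⟨a, ⟨I, hI⟩⟩ ⟨a', ⟨I', hI'⟩⟩ h
  have e1 : a = a' := congrArg Sigma.fst h
  subst e1
  have e2 := eq_of_heq (Sigma.mk.inj_iff.1 h).2
  have e3 : I = I' := congrArg (fun z => z.1.1) e2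
  subst e3
  rfl

omit [IsAlgClosed K] [CharZero K] [Fintype A] [DecidableEq A] in
theorem ind_sub (C : Finset A) {F : A → MvPolynomial (Fin (n + 1)) K}
    {I0 : A → Fin (n + 1) →₀ ℕ}
    (hind : AlgebraicIndependent k
      fun p : (a : A) × {I : Fin (n + 1) →₀ ℕ // I.degree = d a ∧ I ≠ I0 a} =>
        (F p.1).coeff p.2.1 / (F p.1).coeff (I0 p.1)) :
    AlgebraicIndependent k
      fun p : (a : C) × {I : Fin (n + 1) →₀ ℕ // I.degree = d a ∧ I ≠ I0 a} =>
        (F p.1).coeff p.2.1 / (F p.1).coeff (I0 p.1) := by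
  refine hind.comp (fun p : (a : C) × {I : Fin (n + 1) →₀ ℕ // I.degree = d a ∧ I ≠ I0 a} =>
    (⟨p.1.1, p.2⟩ : (a : A) × {I : Fin (n + 1) →₀ ℕ // I.degree = d a ∧ I ≠ I0 a})) ?_
  rintro ⟨⟨a, ha⟩, ⟨I, hI⟩⟩ ⟨⟨a', ha'⟩, ⟨I', hI'⟩⟩ h
  have e1 : a = a' := congrArg Sigma.fst h
  subst e1
  have e2 := eq_of_heq (Sigma.mk.inj_iff.1 h).2
  have e3 : I = I' := congrArg (fun z => z.1) e2
  subst e3
  rfl

omit [CharZero K] [IsAlgClosed K] in
theorem exists_pair {W : Submodule K (Fin (n + 1) → K)} (hW : Module.finrank K W = 2) :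
    ∃ x ∈ W, ∃ y ∈ W, LinearIndependent K ![x, y] := by
  obtain ⟨P, hP, Q, hQ, h, -⟩ := exists_basis hW (B := ∅) (by simp) (by simp)
  exact ⟨P, hP, Q, hQ, h⟩

/-- There are no lines in `F c = 0`, `c ∈ C`, in large degree. -/
theorem no_line_sub (C : Finset A) (hN : 2 * n ≤ ∑ c ∈ C, (d c + 1) + 1)
    {F : A → MvPolynomial (Fin (n + 1)) K} (hF : ∀ a, (F a).IsHomogeneous (d a))
    {I0 : A → Fin (n + 1) →₀ ℕ} (h0 : ∀ a, (F a).coeff (I0 a) ≠ 0)
    (hind : AlgebraicIndependent k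
      fun p : (a : A) × {I : Fin (n + 1) →₀ ℕ // I.degree = d a ∧ I ≠ I0 a} =>
        (F p.1).coeff p.2.1 / (F p.1).coeff (I0 p.1))
    (W : Submodule K (Fin (n + 1) → K)) : ¬ IsLine F C W := by
  rintro ⟨hW, hWC⟩
  obtain ⟨x, hx, y, hy, hxy⟩ := exists_pair hW
  refine Pool.Agent.Y741.no_line_K (k := k) (A := C) (d := fun c => d c) ?_ (fun c => F c)
    (fun c => hF c) (fun c => I0 c) (fun c => h0 c) (ind_sub C hind) hxy fun c a b =>
      hWC c c.2 _ (add_mem (W.smul_mem _ hx) (W.smul_mem _ hy))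
  rw [Finset.sum_coe_sort C d, Fintype.card_coe]
  rw [Finset.sum_add_distrib, Finset.sum_const, smul_eq_mul, mul_one] at hN
  exact hN

/-- The classification of the generic pairs with a nonempty boundary. -/
theorem class_pairs (hn : 1 ≤ n) (hd0 : ∀ a, 0 < d a) (C : Finset A) (hC : C ≠ Finset.univ)
    (hdim : 3 * n + 3 ≤ 2 * ∑ a, d a + C.card ∨ ∑ c ∈ C, (d c + 1) ≤ 2 * n - 2 ∨ C.card + 3 ≤ n)
    (F : A → MvPolynomial (Fin (n + 1)) K) (hF : ∀ a, (F a).IsHomogeneous (d a))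
    (I0 : ∀ a, {I : Fin (n + 1) →₀ ℕ // I.degree = d a}) (h0 : ∀ a, (F a).coeff (I0 a).1 ≠ 0)
    (hgen : AlgebraicIndependent k
      fun p : (a : A) × {I : {I : Fin (n + 1) →₀ ℕ // I.degree = d a} // I ≠ I0 a} =>
        (F p.1).coeff p.2.1.1 / (F p.1).coeff (I0 p.1).1) :
    ((∀ (T : Finset K) (R : Subring K), R ≤ Subring.closure (T : Set K) →
      (RPts F d C R).Finite) ↔ ∀ W, ¬ (IsLine F C W ∧ (Pts W ∩ Bd F C).encard ≤ 2)) ∧
    ((∀ W, ¬ (IsLine F C W ∧ (Pts W ∩ Bd F C).encard ≤ 2)) ↔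
      2 * n + 1 ≤ ∑ a, d a + C.card ∨ 2 * n - 1 ≤ ∑ c ∈ C, (d c + 1)) ∧
    ((∀ (L : Type) [Field L] [Algebra K L] (w : ℕ) (x : Fin (n + 1) → L), 0 < w →
        Algebra.trdeg K L = w → x ≠ 0 → Algebra.IsAlgebraic (coords K x) L →
        (∀ c ∈ C, aeval x (F c) = 0) → (∀ b, b ∉ C → aeval x (F b) ≠ 0) →
        LogGeneralType K L w fun Q : Place K L =>
          ∃ b, b ∉ C ∧ d b * pord Q x < Q.ord (aeval x (F b))) →
      ∀ W, ¬ (IsLine F C W ∧ (Pts W ∩ Bd F C).encard ≤ 2)) ∧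
    (2 * n + 1 ≤ ∑ a, d a + C.card →
      ∀ (L : Type) [Field L] [Algebra K L] (w : ℕ) (x : Fin (n + 1) → L), 0 < w →
        Algebra.trdeg K L = w → x ≠ 0 → Algebra.IsAlgebraic (coords K x) L →
        (∀ c ∈ C, aeval x (F c) = 0) → (∀ b, b ∉ C → aeval x (F b) ≠ 0) →
        LogGeneralType K L w fun Q : Place K L =>
          ∃ b, b ∉ C ∧ d b * pord Q x < Q.ord (aeval x (F b))) := by
  classical
  obtain ⟨b, hb⟩ : ∃ b, b ∉ C := by
    by_contra hcon
    push Not at hcon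
    exact hC (Finset.eq_univ_iff_forall.2 hcon)
  have hcard : 3 * n + 3 ≤ 2 * ∑ a, d a + C.card ∨ C.card < n := by
    rcases hdim with h | h | h
    · exact Or.inl h
    · have h1 : 2 * C.card ≤ ∑ c ∈ C, (d c + 1) := by
        rw [Finset.card_eq_sum_ones, Finset.mul_sum]
        exact Finset.sum_le_sum fun c _ => by have := hd0 c; omega
      right
      omega
    · right
      omega
  have hind := ind_flat hgen
  have hline : (∀ W, ¬ (IsLine F C W ∧ (Pts W ∩ Bd F C).encard ≤ 2)) →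
      2 * n + 1 ≤ ∑ a, d a + C.card ∨ 2 * n - 1 ≤ ∑ c ∈ C, (d c + 1) := by
    intro hno
    by_contra hcon
    push Not at hcon
    obtain ⟨W, hW1, hW2, hW3⟩ := Pool.Agent.Y735.LE.exists_line (k := k) hn (C := C)
      (fun c _ => hd0 c) (by omega) hF _ h0 hind
    have h3 : 2 + (∑ a, d a + C.card - 2 * n) = 2 := by omega
    rw [h3] at hW3
    exact hno W ⟨⟨hW1, hW2⟩, hW3⟩
  have hsplit : ∑ a, d a = ∑ c ∈ C, d c + ∑ c ∈ Cᶜ, d c := (Finset.sum_add_sum_compl C d).symm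
  have hdb : 0 < ∑ c ∈ Cᶜ, d c :=
    lt_of_lt_of_le (hd0 b) (Finset.single_le_sum (f := d) (fun _ _ => Nat.zero_le _)
      (Finset.mem_compl.2 hb))
  have hNC : ∑ c ∈ C, (d c + 1) = ∑ c ∈ C, d c + C.card := by
    rw [Finset.sum_add_distrib, Finset.sum_const, smul_eq_mul, mul_one]
  have hrange : (2 * n + 1 ≤ ∑ a, d a + C.card ∨ 2 * n - 1 ≤ ∑ c ∈ C, (d c + 1)) →
      3 * n + 3 ≤ 2 * ∑ a, d a + C.card := by
    rintro (h | h)
    · rcases hcard with h1 | h1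
      · exact h1
      · omega
    · rcases hdim with h1 | h1 | h1
      · exact h1
      · omega
      · omega
  have hnoline : 2 * n - 1 ≤ ∑ c ∈ C, (d c + 1) →
      ∀ W, ¬ (IsLine F C W ∧ (Pts W ∩ Bd F C).encard ≤ 2) := fun h W hW =>
    no_line_sub (k := k) C (by omega) hF h0 hind W hW.1
  refine ⟨⟨fun hfin W hW => ?_, fun hno => ?_⟩, ⟨hline, ?_⟩, fun hall W hW => ?_, fun hS => ?_⟩
  · obtain ⟨T, hT⟩ := Pool.Agent.Y741.conv_line hF hW.1 hW.2
    exact hT ((hfin T _ le_rfl).subset fun p hp => hp.1)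
  · obtain ⟨h1, -⟩ := Pool.Agent.Y741.generic_pairs hn hd0 C hC (hrange (hline hno)) F hF I0 h0 hgen
    intro T R hR
    refine (h1 T R hR).subset fun p hp => ⟨hp, ?_⟩
    rintro ⟨W, hW, -⟩
    exact hno W hW
  · rintro (h | h)
    · obtain ⟨-, -, h3, -⟩ := Pool.Agent.Y741.generic_pairs hn hd0 C hC (hrange (Or.inl h)) F hF I0
        h0 hgen
      exact (h3 h).1
    · exact hnoline h
  · obtain ⟨x, hx, halg, hxC, hxb, htr, hnot⟩ := exists_not_lgt F hF C hW.1.1 hW.1.2 hW.2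
    exact hnot (hall (RatFunc K) 1 x one_pos htr hx halg hxC hxb)
  · obtain ⟨-, -, -, -, -, h6⟩ := Pool.Agent.Y741.generic_pairs hn hd0 C hC (hrange (Or.inl hS)) F hF
      I0 h0 hgen
    intro L _ _ w x hw htr hx halg hxC hxb
    exact h6 L w x hw (by omega) htr hx halg hxC hxb

/-- The classification of the generic complete intersections. -/
theorem class_ci (hn : 1 ≤ n) (hd0 : ∀ a, 0 < d a)
    (hdim : 3 * n + 3 ≤ 2 * ∑ a, d a + Fintype.card A ∨
      ∑ a, d a + Fintype.card A ≤ 2 * n - 2 ∨ Fintype.card A + 5 ≤ n)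
    (F : A → MvPolynomial (Fin (n + 1)) K) (hF : ∀ a, (F a).IsHomogeneous (d a))
    (I0 : ∀ a, {I : Fin (n + 1) →₀ ℕ // I.degree = d a}) (h0 : ∀ a, (F a).coeff (I0 a).1 ≠ 0)
    (hgen : AlgebraicIndependent k
      fun p : (a : A) × {I : {I : Fin (n + 1) →₀ ℕ // I.degree = d a} // I ≠ I0 a} =>
        (F p.1).coeff p.2.1.1 / (F p.1).coeff (I0 p.1).1) :
    ((∀ T : Finset K, (EPts F (Subfield.closure (T : Set K))).Finite) ↔ ∀ W, ¬ LineIn F W) ∧
    ((∀ T : Finset K, (EPts F (IntermediateField.adjoin (algebraicClosure k K)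
        (T : Set K)).toSubfield).Finite) ↔ ∀ W, ¬ LineIn F W) ∧
    ((∀ W, ¬ LineIn F W) ↔ 2 * n ≤ ∑ a, d a + Fintype.card A + 1) := by
  classical
  have hind := ind_flat hgen
  have hno : (∀ W, ¬ LineIn F W) → 2 * n ≤ ∑ a, d a + Fintype.card A + 1 := by
    intro hno
    by_contra hcon
    push Not at hcon
    have hsum : ∑ c ∈ (Finset.univ : Finset A), (d c + 1) = ∑ a, d a + Fintype.card A := by
      rw [Finset.sum_add_distrib, Finset.sum_const, smul_eq_mul, mul_one, Finset.card_univ]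
    obtain ⟨W, hW1, hW2, -⟩ := Pool.Agent.Y735.LE.exists_line (k := k) hn
      (C := (Finset.univ : Finset A)) (fun c _ => hd0 c) (by rw [hsum]; omega) hF _ h0 hind
    exact hno W ⟨hW1, fun a v hv => hW2 a (Finset.mem_univ a) v hv⟩
  have hfin : 2 * n ≤ ∑ a, d a + Fintype.card A + 1 → (∀ W, ¬ LineIn F W) ∧
      ∀ T : Finset K, (EPts F (IntermediateField.adjoin (algebraicClosure k K)
        (T : Set K)).toSubfield).Finite := by
    intro h
    obtain ⟨-, -, h3, -⟩ := Pool.Agent.Y741.generic_intersections hn hd0 (by omega) F hF I0 h0 hgen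
    exact h3 h
  have hinf : (∀ T : Finset K, (EPts F (Subfield.closure (T : Set K))).Finite) →
      ∀ W, ¬ LineIn F W := by
    intro h W hW
    obtain ⟨T, hT⟩ := Pool.Agent.Y741.line_inf hW
    exact hT ((h T).subset fun p hp => hp.1)
  have hle : (∀ T : Finset K, (EPts F (IntermediateField.adjoin (algebraicClosure k K)
        (T : Set K)).toSubfield).Finite) →
      ∀ T : Finset K, (EPts F (Subfield.closure (T : Set K))).Finite := by
    intro h T
    refine (h T).subset ?_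
    rintro p ⟨hp, x, hx, hx0⟩
    refine ⟨hp, x, fun i => ?_, hx0⟩
    have h1 : Subfield.closure (T : Set K) ≤ (IntermediateField.adjoin (algebraicClosure k K)
        (T : Set K)).toSubfield :=
      Subfield.closure_le.2 (IntermediateField.subset_adjoin _ _)
    exact h1 (hx i)
  exact ⟨⟨hinf, fun h => hle (hfin (hno h)).2⟩, ⟨fun h => hinf (hle h), fun h => (hfin (hno h)).2⟩,
    ⟨hno, fun h => (hfin h).1⟩⟩

end Pool.Agent.Y735.LG
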